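import Pool.Agent.Helper51.LT.St

/-!
# Project LT (MP_d6acc2_an): module D2

Integrated distortion along radii.
-/

set_option autoImplicit false

namespace Pool.Agent.Helper95.LT

open Complex MeasureTheory Set Metric Filter Topology
open Pool.Agent.Helper51.LT

theorem hD2 (hD1 : StD1) : StD2 := by
  intro f R z t hR hf hz ht0 ht1
  obtain ⟨hd, hinj⟩ := hf
  have hz0 : 0 ≤ ‖z‖ := norm_nonneg z
  -- points of the segment
  have hpos : ∀ τ : ℝ, 0 ≤ τ → τ ≤ 1 → 0 < R - τ * ‖z‖ := by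
    intro τ h0 h1
    nlinarith
  have hnorm : ∀ τ : ℝ, 0 ≤ τ → ‖(τ : ℂ) * z‖ = τ * ‖z‖ := by
    intro τ h0
    rw [norm_mul, Complex.norm_real, Real.norm_of_nonneg h0]
  have hmem : ∀ τ : ℝ, 0 ≤ τ → τ ≤ 1 → (τ : ℂ) * z ∈ ball (0 : ℂ) R := by
    intro τ h0 h1
    rw [mem_ball_zero_iff, hnorm τ h0]
    linarith [hpos τ h0 h1]
  have hbd : ∀ τ : ℝ, 0 ≤ τ → τ ≤ 1 →
      (R - τ * ‖z‖) * ‖deriv (deriv f) ((τ : ℂ) * z)‖ ≤ 4 * ‖deriv f ((τ : ℂ) * z)‖ := by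
    intro τ h0 h1
    apply hD1 f _ _ (hpos τ h0 h1)
    have hsub : ball ((τ : ℂ) * z) (R - τ * ‖z‖) ⊆ ball (0 : ℂ) R := by
      apply ball_subset_ball'
      rw [dist_zero_right, hnorm τ h0]
      linarith
    exact ⟨hd.mono hsub, hinj.mono hsub⟩
  have hdd : DifferentiableOn ℂ (deriv f) (ball 0 R) := hd.deriv isOpen_ball
  have hder : ∀ τ : ℝ, 0 ≤ τ → τ ≤ 1 → HasDerivAt (fun s : ℝ => deriv f ((s : ℂ) * z))
      (deriv (deriv f) ((τ : ℂ) * z) * z) τ := by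
    intro τ h0 h1
    have h2 : HasDerivAt (deriv f) (deriv (deriv f) ((τ : ℂ) * z)) ((τ : ℂ) * z) :=
      (hdd.differentiableAt (isOpen_ball.mem_nhds (hmem τ h0 h1))).hasDerivAt
    have h3 : HasDerivAt (fun s : ℂ => s * z) z (τ : ℂ) := by
      have := (hasDerivAt_id (τ : ℂ)).mul_const z
      simpa using this
    have h4 : HasDerivAt (fun s : ℂ => deriv f (s * z)) (deriv (deriv f) ((τ : ℂ) * z) * z)
        (τ : ℂ) := by
      have h5 := HasDerivAt.comp (h₂ := deriv f) (h := fun s : ℂ => s * z) (τ : ℂ) h2 h3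
      exact h5
    exact h4.comp_ofReal
  have hu : ∀ τ : ℝ, 0 ≤ τ → τ ≤ 1 → HasDerivAt (fun s : ℝ => ‖deriv f ((s : ℂ) * z)‖ ^ 2)
      (2 * inner ℝ (deriv f ((τ : ℂ) * z)) (deriv (deriv f) ((τ : ℂ) * z) * z)) τ := by
    intro τ h0 h1
    exact (hder τ h0 h1).norm_sq
  have hinner : ∀ τ : ℝ, 0 ≤ τ → τ ≤ 1 →
      (R - τ * ‖z‖) * |2 * inner ℝ (deriv f ((τ : ℂ) * z)) (deriv (deriv f) ((τ : ℂ) * z) * z)|
        ≤ 8 * ‖z‖ * ‖deriv f ((τ : ℂ) * z)‖ ^ 2 := by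
    intro τ h0 h1
    have h2 := abs_real_inner_le_norm (deriv f ((τ : ℂ) * z))
      (deriv (deriv f) ((τ : ℂ) * z) * z)
    rw [norm_mul] at h2
    rw [abs_mul, abs_two]
    have h3 := hbd τ h0 h1
    have h4 := (hpos τ h0 h1).le
    calc (R - τ * ‖z‖) * (2 * |inner ℝ (deriv f ((τ : ℂ) * z))
          (deriv (deriv f) ((τ : ℂ) * z) * z)|)
        ≤ (R - τ * ‖z‖) * (2 * (‖deriv f ((τ : ℂ) * z)‖ *
            (‖deriv (deriv f) ((τ : ℂ) * z)‖ * ‖z‖))) := by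
          apply mul_le_mul_of_nonneg_left _ h4
          linarith
      _ = 2 * ‖z‖ * ‖deriv f ((τ : ℂ) * z)‖ *
            ((R - τ * ‖z‖) * ‖deriv (deriv f) ((τ : ℂ) * z)‖) := by ring
      _ ≤ 2 * ‖z‖ * ‖deriv f ((τ : ℂ) * z)‖ * (4 * ‖deriv f ((τ : ℂ) * z)‖) := by
          apply mul_le_mul_of_nonneg_left h3
          positivity
      _ = 8 * ‖z‖ * ‖deriv f ((τ : ℂ) * z)‖ ^ 2 := by ring
  have hw : ∀ τ : ℝ, HasDerivAt (fun s : ℝ => (R - s * ‖z‖) ^ 8)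
      (-(8 * ‖z‖ * (R - τ * ‖z‖) ^ 7)) τ := by
    intro τ
    have h2 : HasDerivAt (fun s : ℝ => R - s * ‖z‖) (-‖z‖) τ := by
      have := ((hasDerivAt_id τ).mul_const ‖z‖).const_sub R
      simpa using this
    have h3 := h2.pow 8
    refine h3.congr_deriv ?_
    push_cast
    ring
  have hsq : ∀ a b : ℝ, 0 ≤ a → 0 ≤ b → a ^ 2 ≤ b ^ 2 → a ≤ b := by
    intro a b _ hb h
    exact le_of_sq_le_sq h hb
  have hIcc : ∀ τ ∈ Icc t 1, 0 ≤ τ ∧ τ ≤ 1 := fun τ hτ => ⟨ht0.trans hτ.1, hτ.2⟩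
  constructor
  · -- quotient is monotone
    have hq : ∀ τ : ℝ, 0 ≤ τ → τ ≤ 1 →
        HasDerivAt (fun s : ℝ => ‖deriv f ((s : ℂ) * z)‖ ^ 2 / (R - s * ‖z‖) ^ 8)
          ((2 * inner ℝ (deriv f ((τ : ℂ) * z)) (deriv (deriv f) ((τ : ℂ) * z) * z)
              * (R - τ * ‖z‖) ^ 8
            - ‖deriv f ((τ : ℂ) * z)‖ ^ 2 * (-(8 * ‖z‖ * (R - τ * ‖z‖) ^ 7)))
            / ((R - τ * ‖z‖) ^ 8) ^ 2) τ := by
      intro τ h0 h1
      exact (hu τ h0 h1).div (hw τ) (pow_pos (hpos τ h0 h1) 8).ne'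
    have hmono : MonotoneOn (fun s : ℝ => ‖deriv f ((s : ℂ) * z)‖ ^ 2 / (R - s * ‖z‖) ^ 8)
        (Icc t 1) := by
      apply monotoneOn_of_deriv_nonneg (convex_Icc t 1)
      · intro τ hτ
        exact (hq τ (hIcc τ hτ).1 (hIcc τ hτ).2).continuousAt.continuousWithinAt
      · intro τ hτ
        rw [interior_Icc] at hτ
        exact (hq τ (hIcc τ (Ioo_subset_Icc_self hτ)).1
          (hIcc τ (Ioo_subset_Icc_self hτ)).2).differentiableAt.differentiableWithinAt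
      · intro τ hτ
        rw [interior_Icc] at hτ
        have h0 := (hIcc τ (Ioo_subset_Icc_self hτ)).1
        have h1 := (hIcc τ (Ioo_subset_Icc_self hτ)).2
        rw [(hq τ h0 h1).deriv]
        apply div_nonneg _ (by positivity)
        have h2 := hinner τ h0 h1
        have h3 := neg_abs_le (2 * inner ℝ (deriv f ((τ : ℂ) * z))
          (deriv (deriv f) ((τ : ℂ) * z) * z))
        have h4 := hpos τ h0 h1
        have h5 : 0 ≤ (R - τ * ‖z‖) ^ 7 := (pow_pos h4 7).le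
        have h6 : 0 ≤ (R - τ * ‖z‖) * (2 * inner ℝ (deriv f ((τ : ℂ) * z))
            (deriv (deriv f) ((τ : ℂ) * z) * z)) + 8 * ‖z‖ * ‖deriv f ((τ : ℂ) * z)‖ ^ 2 := by
          have := mul_le_mul_of_nonneg_left h3 h4.le
          linarith
        have h7 := mul_nonneg h6 h5
        calc (0 : ℝ) ≤ _ := h7
          _ = _ := by ring
    have h := hmono (left_mem_Icc.2 ht1) (right_mem_Icc.2 ht1) ht1
    simp only [Complex.ofReal_one, one_mul] at h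
    have hp1 : 0 < (R - ‖z‖) ^ 8 := by
      have := hpos 1 zero_le_one le_rfl
      rw [one_mul] at this
      positivity
    have hpt : 0 < (R - t * ‖z‖) ^ 8 := pow_pos (hpos t ht0 ht1) 8
    rw [div_le_div_iff₀ hpt hp1] at h
    have hp1' : 0 < R - ‖z‖ := by linarith
    have hpt' := hpos t ht0 ht1
    apply hsq _ _ (by positivity) (by positivity)
    calc ((R - ‖z‖) ^ 4 * ‖deriv f (t * z)‖) ^ 2
        = ‖deriv f (t * z)‖ ^ 2 * (R - ‖z‖) ^ 8 := by ring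
      _ ≤ ‖deriv f z‖ ^ 2 * (R - t * ‖z‖) ^ 8 := h
      _ = ((R - t * ‖z‖) ^ 4 * ‖deriv f z‖) ^ 2 := by ring
  · -- product is antitone
    have hq : ∀ τ : ℝ, 0 ≤ τ → τ ≤ 1 →
        HasDerivAt (fun s : ℝ => ‖deriv f ((s : ℂ) * z)‖ ^ 2 * (R - s * ‖z‖) ^ 8)
          (2 * inner ℝ (deriv f ((τ : ℂ) * z)) (deriv (deriv f) ((τ : ℂ) * z) * z)
              * (R - τ * ‖z‖) ^ 8
            + ‖deriv f ((τ : ℂ) * z)‖ ^ 2 * (-(8 * ‖z‖ * (R - τ * ‖z‖) ^ 7))) τ := by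
      intro τ h0 h1
      exact (hu τ h0 h1).mul (hw τ)
    have hanti : AntitoneOn (fun s : ℝ => ‖deriv f ((s : ℂ) * z)‖ ^ 2 * (R - s * ‖z‖) ^ 8)
        (Icc t 1) := by
      apply antitoneOn_of_deriv_nonpos (convex_Icc t 1)
      · intro τ hτ
        exact (hq τ (hIcc τ hτ).1 (hIcc τ hτ).2).continuousAt.continuousWithinAt
      · intro τ hτ
        rw [interior_Icc] at hτ
        exact (hq τ (hIcc τ (Ioo_subset_Icc_self hτ)).1
          (hIcc τ (Ioo_subset_Icc_self hτ)).2).differentiableAt.differentiableWithinAt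
      · intro τ hτ
        rw [interior_Icc] at hτ
        have h0 := (hIcc τ (Ioo_subset_Icc_self hτ)).1
        have h1 := (hIcc τ (Ioo_subset_Icc_self hτ)).2
        rw [(hq τ h0 h1).deriv]
        have h2 := hinner τ h0 h1
        have h3 := le_abs_self (2 * inner ℝ (deriv f ((τ : ℂ) * z))
          (deriv (deriv f) ((τ : ℂ) * z) * z))
        have h4 := hpos τ h0 h1
        have h5 : 0 ≤ (R - τ * ‖z‖) ^ 7 := (pow_pos h4 7).le
        have h6 : (R - τ * ‖z‖) * (2 * inner ℝ (deriv f ((τ : ℂ) * z))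
            (deriv (deriv f) ((τ : ℂ) * z) * z)) - 8 * ‖z‖ * ‖deriv f ((τ : ℂ) * z)‖ ^ 2 ≤ 0 := by
          have := mul_le_mul_of_nonneg_left h3 h4.le
          linarith
        have h7 := mul_nonpos_of_nonpos_of_nonneg h6 h5
        calc _ = ((R - τ * ‖z‖) * (2 * inner ℝ (deriv f ((τ : ℂ) * z))
            (deriv (deriv f) ((τ : ℂ) * z) * z)) - 8 * ‖z‖ * ‖deriv f ((τ : ℂ) * z)‖ ^ 2)
              * (R - τ * ‖z‖) ^ 7 := by ring
          _ ≤ 0 := h7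
    have h := hanti (left_mem_Icc.2 ht1) (right_mem_Icc.2 ht1) ht1
    simp only [Complex.ofReal_one, one_mul] at h
    have hp1' : 0 < R - ‖z‖ := by linarith
    have hpt' := hpos t ht0 ht1
    apply hsq _ _ (by positivity) (by positivity)
    calc ((R - ‖z‖) ^ 4 * ‖deriv f z‖) ^ 2
        = ‖deriv f z‖ ^ 2 * (R - ‖z‖) ^ 8 := by ring
      _ ≤ ‖deriv f (t * z)‖ ^ 2 * (R - t * ‖z‖) ^ 8 := h
      _ = ((R - t * ‖z‖) ^ 4 * ‖deriv f (t * z)‖) ^ 2 := by ring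

end Pool.Agent.Helper95.LT
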